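import Pool.Agent.Helper69.Enayat.Defs

/-!
# Enayat models: auxiliary definitions shared by the modules
-/

set_option autoImplicit false

namespace Pool.Agent.Helper69.Enayat

open FirstOrder FirstOrder.Language Pool.Agent.Helper30.SatB Filter

/-! ### Forcing conditions -/

/-- Incomparable strings. -/
def Inc (s t : List Bool) : Prop := ¬ s <+: t ∧ ¬ t <+: s

/-- A condition: an arithmetical set `A` of strings and an arithmetical perfect set `T` of strings,
such that every `t ∈ T` has an extension in `A`. -/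
structure Cond where
  A : List Bool → Prop
  T : List Bool → Prop
  arA : ArithP A
  arT : ArithP T
  ne : ∃ t, T t
  split : ∀ t, T t → ∃ t₁ t₂, T t₁ ∧ T t₂ ∧ t <+: t₁ ∧ t <+: t₂ ∧ Inc t₁ t₂
  dense : ∀ t, T t → ∃ x, A x ∧ t <+: x

/-- Extension of conditions. -/
def Cond.Le (D C : Cond) : Prop := (∀ x, D.A x → C.A x) ∧ ∀ t, D.T t → C.T t

/-- The properties of the generic ultrafilter. -/
structure Good (U : Ultrafilter (List Bool)) : Prop where
  ramsey : ∀ f : List Bool → ℕ, ArithF f → (∃ n, ∀ᶠ x in (U : Filter (List Bool)), f x = n) ∨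
    ∃ A : List Bool → Prop, ArithP A ∧ (∀ᶠ x in (U : Filter (List Bool)), A x) ∧
      ∀ x y, A x → A y → f x = f y → x = y
  branch : ∃ Y : ℕ → Bool, ¬ ArithP (fun n => Y n = true) ∧
    ∀ m, ∀ᶠ x in (U : Filter (List Bool)), x.take m = (List.range m).map Y
  real : ∀ g : List Bool → List Bool, ArithF g →
    (∀ m, ∀ᶠ x in (U : Filter (List Bool)), m ≤ (g x).length) →
    (∃ Z : ℕ → Bool, ArithP (fun n => Z n = true) ∧
      ∀ m, ∀ᶠ x in (U : Filter (List Bool)), (g x).take m = (List.range m).map Z) ∨
    (∃ B : List Bool → Prop, ArithP B ∧ (∀ m, ∀ᶠ x in (U : Filter (List Bool)), ¬ B ((g x).take m)) ∧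
      ∀ᶠ x in (U : Filter (List Bool)), ∃ k ≤ (g x).length, B ((g x).take k))

/-! ### The model -/

/-- The arithmetical functions on strings. -/
abbrev ArF : Type := {f : List Bool → ℕ // ArithF f}

/-- `M` is the definable ultrapower of the standard model by `U`. -/
structure IsUP (U : Ultrafilter (List Bool)) (M : Type) [arithLang.Structure M] (mk : ArF → M) :
    Prop where
  surj : Function.Surjective mk
  los : ∀ {ι : Type} {n : ℕ} (φ : arithLang.BoundedFormula ι n) (f : ι → ArF) (g : Fin n → ArF),
    φ.Realize (fun i => mk (f i)) (fun i => mk (g i)) ↔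
      ∀ᶠ x in (U : Filter (List Bool)), φ.Realize (fun i => (f i).1 x) (fun i => (g i).1 x)

/-- the data provided by an undefinable class -/
structure KeyData (U : Ultrafilter (List Bool)) {M : Type} [arithLang.Structure M] (mk : ArF → M)
    (X : Set M) (g : List Bool → List Bool) (B : List Bool → Prop) : Prop where
  arg : ArithF g
  arB : ArithP B
  repr : ∀ f : ArF, (∀ᶠ x in (U : Filter (List Bool)), f.1 x < (g x).length) →
    (mk f ∈ X ↔ ∀ᶠ x in (U : Filter (List Bool)), (g x)[f.1 x]? = some true)
  std : ∀ m, ∀ᶠ x in (U : Filter (List Bool)), ¬ B ((g x).take m)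
  hit : ∀ᶠ x in (U : Filter (List Bool)), ∃ k ≤ (g x).length, B ((g x).take k)

end Pool.Agent.Helper69.Enayat
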