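import Pool.Agent.Helper69.Enayat.Defs
import Pool.Agent.Helper63.Ar.Prim
import Pool.Agent.Helper96.PA.Basic

/-!
# Closure properties of arithmetical predicates and functions
-/

set_option autoImplicit false

namespace Pool.Agent.Helper69.Enayat

open FirstOrder FirstOrder.Language Pool.Agent.Helper30.SatB Filter

open Pool.Agent.Helper63.Ar in
instance arithLang_instArithLang : ArithLang arithLang where
  add := ⟨(Term.var 0).equal (Pool.Agent.Helper96.PA.tAdd (Term.var 1) (Term.var 2)), fun v => by
    rw [Formula.realize_equal, Pool.Agent.Helper96.PA.realize_tAdd]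
    exact Iff.rfl⟩
  mul := ⟨(Term.var 0).equal (Pool.Agent.Helper96.PA.tMul (Term.var 1) (Term.var 2)), fun v => by
    rw [Formula.realize_equal, Pool.Agent.Helper96.PA.realize_tMul]
    exact Iff.rfl⟩

section AR

variable {α β γ δ : Type} [Primcodable α] [Primcodable β] [Primcodable γ] [Primcodable δ]

theorem ArithP.congr {P Q : α → Prop} (hP : ArithP P) (h : ∀ a, Q a ↔ P a) : ArithP Q :=
  Pool.Agent.Helper63.Ar.ArP.congr (L := arithLang) hP h
theorem ArithP.of_primrec {P : α → Prop} (h : PrimrecPred P) : ArithP P :=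
  Pool.Agent.Helper63.Ar.ArP.ofPrimrecPred (L := arithLang) h
theorem ArithF.of_primrec {f : α → β} (h : Primrec f) : ArithF f :=
  Pool.Agent.Helper63.Ar.ArF.ofPrimrec (L := arithLang) h
theorem ArithP.const (p : Prop) : ArithP (fun _ : α => p) :=
  Pool.Agent.Helper63.Ar.ArP.const (L := arithLang) p
theorem ArithP.not {P : α → Prop} (hP : ArithP P) : ArithP (fun a => ¬ P a) :=
  Pool.Agent.Helper63.Ar.ArP.not (L := arithLang) hP
theorem ArithP.and {P Q : α → Prop} (hP : ArithP P) (hQ : ArithP Q) :
    ArithP (fun a => P a ∧ Q a) :=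
  Pool.Agent.Helper63.Ar.ArP.and (L := arithLang) hP hQ
theorem ArithP.or {P Q : α → Prop} (hP : ArithP P) (hQ : ArithP Q) :
    ArithP (fun a => P a ∨ Q a) :=
  Pool.Agent.Helper63.Ar.ArP.or (L := arithLang) hP hQ
theorem ArithP.imp {P Q : α → Prop} (hP : ArithP P) (hQ : ArithP Q) :
    ArithP (fun a => P a → Q a) :=
  Pool.Agent.Helper63.Ar.ArP.imp (L := arithLang) hP hQ
theorem ArithP.comp {P : β → Prop} {f : α → β} (hP : ArithP P) (hf : ArithF f) :
    ArithP (fun a => P (f a)) :=
  Pool.Agent.Helper63.Ar.ArP.comp (L := arithLang) hP hf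
/-- the graph is used as a two place predicate -/
theorem ArithP.comp₂ {P : β → γ → Prop} {f : α → β} {g : α → γ}
    (hP : ArithP (fun p : β × γ => P p.1 p.2)) (hf : ArithF f) (hg : ArithF g) :
    ArithP (fun a => P (f a) (g a)) :=
  Pool.Agent.Helper63.Ar.ArP.comp₂ (L := arithLang) hP hf hg
theorem ArithP.ex {P : α → β → Prop} (hP : ArithP (fun p : α × β => P p.1 p.2)) :
    ArithP (fun a => ∃ b, P a b) :=
  Pool.Agent.Helper63.Ar.ArP.ex (L := arithLang) hP
theorem ArithP.all {P : α → β → Prop} (hP : ArithP (fun p : α × β => P p.1 p.2)) :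
    ArithP (fun a => ∀ b, P a b) :=
  Pool.Agent.Helper63.Ar.ArP.all (L := arithLang) hP
theorem ArithP.eq {f g : α → β} (hf : ArithF f) (hg : ArithF g) :
    ArithP (fun a => f a = g a) :=
  Pool.Agent.Helper63.Ar.ArP.eq (L := arithLang) hf hg
theorem ArithP.le {f g : α → ℕ} (hf : ArithF f) (hg : ArithF g) :
    ArithP (fun a => f a ≤ g a) :=
  Pool.Agent.Helper63.Ar.ArP.le (L := arithLang) hf hg
theorem ArithP.lt {f g : α → ℕ} (hf : ArithF f) (hg : ArithF g) :
    ArithP (fun a => f a < g a) :=
  Pool.Agent.Helper63.Ar.ArP.lt (L := arithLang) hf hg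
theorem ArithF.congr {f g : α → β} (hf : ArithF f) (h : ∀ a, g a = f a) : ArithF g :=
  Pool.Agent.Helper63.Ar.ArF.congr (L := arithLang) hf h
theorem ArithF.const (b : β) : ArithF (fun _ : α => b) :=
  Pool.Agent.Helper63.Ar.ArF.const (L := arithLang) b
theorem ArithF.id : ArithF (fun a : α => a) :=
  Pool.Agent.Helper63.Ar.ArF.id (L := arithLang)
theorem ArithF.comp {g : β → γ} {f : α → β} (hg : ArithF g) (hf : ArithF f) :
    ArithF (fun a => g (f a)) :=
  Pool.Agent.Helper63.Ar.ArF.comp (L := arithLang) hg hf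
theorem ArithF.comp₂ {g : β → γ → δ} {f : α → β} {f' : α → γ}
    (hg : ArithF (fun p : β × γ => g p.1 p.2)) (hf : ArithF f) (hf' : ArithF f') :
    ArithF (fun a => g (f a) (f' a)) :=
  Pool.Agent.Helper63.Ar.ArF.comp₂ (L := arithLang) hg hf hf'
theorem ArithF.pair {f : α → β} {g : α → γ} (hf : ArithF f) (hg : ArithF g) :
    ArithF (fun a => (f a, g a)) :=
  Pool.Agent.Helper63.Ar.ArF.pair (L := arithLang) hf hg
theorem ArithF.fst {f : α → β × γ} (hf : ArithF f) : ArithF (fun a => (f a).1) :=
  ArithF.comp (g := Prod.fst) (ArithF.of_primrec Primrec.fst) hf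
theorem ArithF.snd {f : α → β × γ} (hf : ArithF f) : ArithF (fun a => (f a).2) :=
  ArithF.comp (g := Prod.snd) (ArithF.of_primrec Primrec.snd) hf
theorem ArithF.add {f g : α → ℕ} (hf : ArithF f) (hg : ArithF g) :
    ArithF (fun a => f a + g a) :=
  Pool.Agent.Helper63.Ar.ArF.add (L := arithLang) hf hg
/-- a function whose graph is given by an arithmetical relation -/
theorem ArithF.of_graph {P : α → β → Prop} {f : α → β} (hP : ArithP (fun p : α × β => P p.1 p.2))
    (h : ∀ a b, f a = b ↔ P a b) : ArithF f :=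
  Pool.Agent.Helper63.Ar.ArF.of_unique (L := arithLang) hP h
/-- least number search -/
theorem ArithF.find {P : α → ℕ → Prop} (hP : ArithP (fun p : α × ℕ => P p.1 p.2)) {f : α → ℕ}
    (h : ∀ a, P a (f a) ∧ ∀ y < f a, ¬ P a y) : ArithF f :=
  Pool.Agent.Helper63.Ar.ArF.find (L := arithLang) hP h
open Classical in
theorem ArithF.ite {P : α → Prop} {f g : α → β} (hP : ArithP P) (hf : ArithF f)
    (hg : ArithF g) : ArithF (fun a => if P a then f a else g a) :=
  Pool.Agent.Helper63.Ar.ArF.ite (L := arithLang) hP hf hg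
/-- Skolem functions -/
theorem ArithP.skolem [Inhabited β] {P : α → β → Prop}
    (hP : ArithP (fun p : α × β => P p.1 p.2)) :
    ∃ f : α → β, ArithF f ∧ ∀ a, (∃ b, P a b) → P a (f a) :=
  Pool.Agent.Helper63.Ar.skolem (L := arithLang) hP
/-- recursion with a parameter -/
theorem ArithF.natRec {f : α → β} {g : α → ℕ → β → β} (hf : ArithF f)
    (hg : ArithF (fun p : α × (ℕ × β) => g p.1 p.2.1 p.2.2)) :
    ArithF (fun p : α × ℕ => (Nat.rec (f p.1) (g p.1) p.2 : β)) :=
  Pool.Agent.Helper63.Ar.ArF.nat_rec (L := arithLang) (α := α × ℕ) (f := fun p => f p.1)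
    (g := fun p n b => g p.1 n b) (n := fun p => p.2)
    (ArithF.comp hf (ArithF.fst ArithF.id))
    (ArithF.comp (g := fun p : α × (ℕ × β) => g p.1 p.2.1 p.2.2)
      (f := fun p : (α × ℕ) × (ℕ × β) => (p.1.1, p.2)) hg
      ((ArithF.fst (ArithF.fst ArithF.id)).pair (ArithF.snd ArithF.id)))
    (ArithF.snd ArithF.id)
/-- a sequence defined by recursion -/
theorem ArithF.seq {f : ℕ → β} {b : β} {g : ℕ → β → β} (hg : ArithF (fun p : ℕ × β => g p.1 p.2))
    (h0 : f 0 = b) (hs : ∀ n, f (n + 1) = g n (f n)) : ArithF f :=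
  Pool.Agent.Helper63.Ar.ArF.seq (L := arithLang) hg h0 hs
theorem ArithF.foldl {g : β → γ → β} (b₀ : β) (hg : ArithF (fun p : β × γ => g p.1 p.2)) :
    ArithF (fun l : List γ => l.foldl g b₀) :=
  Pool.Agent.Helper63.Ar.ArF.list_foldl (L := arithLang) (α := List γ) (l := fun l => l)
    (f := fun _ => b₀) (g := fun _ b c => g b c) (ArithF.id) (ArithF.const b₀)
    (ArithF.comp (g := fun p : β × γ => g p.1 p.2) (f := fun p : List γ × β × γ => p.2) hg
      (ArithF.snd ArithF.id))
/-- a function on lists defined by recursion -/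
theorem ArithF.listSeq {f : List β → γ} {c : γ} {g : β → List β → γ → γ}
    (hg : ArithF (fun p : β × List β × γ => g p.1 p.2.1 p.2.2))
    (h0 : f [] = c) (hs : ∀ b l, f (b :: l) = g b l (f l)) : ArithF f :=
  Pool.Agent.Helper63.Ar.ArF.listSeq (L := arithLang) hg h0 hs
theorem ArithF.mapRange {f : α → ℕ → β} (hf : ArithF (fun p : α × ℕ => f p.1 p.2)) :
    ArithF (fun p : α × ℕ => (List.range p.2).map (f p.1)) := by
  refine (ArithF.natRec (α := α) (β := List β) (f := fun _ => [])
    (g := fun a n l => l ++ [f a n]) (ArithF.const _) ?_).congr ?_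
  · have h1 : ArithF (fun p : List β × List β => p.1 ++ p.2) :=
      ArithF.of_primrec Primrec.list_append
    have h2 : ArithF (fun b : β => [b]) :=
      ArithF.of_primrec (Primrec.list_cons.comp Primrec.id (Primrec.const []))
    refine ArithF.comp₂ (g := fun l l' : List β => l ++ l') h1
      (ArithF.snd (ArithF.snd ArithF.id)) (ArithF.comp h2 ?_)
    exact ArithF.comp₂ (g := fun a n => f a n) hf (ArithF.fst ArithF.id)
      (ArithF.fst (ArithF.snd ArithF.id))
  · rintro ⟨a, n⟩
    induction n with
    | zero => rfl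
    | succ n ih =>
      rw [List.range_succ, List.map_append]
      simp only at ih ⊢
      rw [← ih]
      rfl
open Classical in
theorem ArithF.decide {P : α → Prop} (hP : ArithP P) : ArithF (fun a => decide (P a)) := by
  refine (ArithF.ite hP (ArithF.const true) (ArithF.const false)).congr fun a => ?_
  by_cases h : P a <;> simp [h]

/-- the value of a term at arithmetical arguments -/
theorem arithF_term {ι : Type} (t : arithLang.Term ι) (f : ι → α → ℕ)
    (hf : ∀ i, ArithF (f i)) : ArithF (fun a => t.realize (fun i => f i a)) := by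
  induction t with
  | var i => exact hf i
  | @func n s ts ih =>
    show ArithF (fun a => natFun n s.1 (fun i => (ts i).realize (fun i => f i a)))
    match n, s, ts, ih with
    | 0, _, _, _ => exact ArithF.const 0
    | 1, _, _, ih => exact ArithF.add (ih 0) (ArithF.const 1)
    | 2, s, _, ih =>
      by_cases hs : s.1 = 0
      · exact (ArithF.add (ih 0) (ih 1)).congr fun a => if_pos hs
      · refine (ArithF.comp₂ (g := fun x y : ℕ => x * y) (ArithF.of_primrec Primrec.nat_mul)
          (ih 0) (ih 1)).congr fun a => if_neg hs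
    | _ + 3, _, _, _ => exact ArithF.const 0

/-- truth in the standard model of a formula at arithmetical arguments -/
theorem ArithP.realize {ι : Type} {n : ℕ} (φ : arithLang.BoundedFormula ι n)
    (f : ι → α → ℕ) (g : Fin n → α → ℕ) (hf : ∀ i, ArithF (f i)) (hg : ∀ i, ArithF (g i)) :
    ArithP (fun a => φ.Realize (fun i => f i a) (fun i => g i a)) := by
  induction φ generalizing α with
  | falsum => exact ArithP.const False
  | equal t s =>
    have h : ∀ i, ArithF ((Sum.elim f g) i) := by
      rintro (i | i)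
      · exact hf i
      · exact hg i
    have key : ∀ a, (fun i => (Sum.elim f g) i a) = Sum.elim (fun i => f i a) (fun i => g i a) := by
      intro a
      funext i
      cases i <;> rfl
    refine (ArithP.eq (arithF_term t _ h) (arithF_term s _ h)).congr fun a => ?_
    rw [key]
    exact Iff.rfl
  | rel r _ => exact r.2.elim
  | imp φ ψ h1 h2 => exact (h1 f g hf hg).imp (h2 f g hf hg)
  | @all n φ h =>
    have h' := h (α := α × ℕ) (fun i p => f i p.1)
      (fun i p => (Fin.snoc (fun i => g i p.1) p.2 : Fin (n + 1) → ℕ) i)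
      (fun i => ArithF.comp (hf i) (ArithF.fst ArithF.id)) (fun i => by
        refine Fin.lastCases ?_ (fun i => ?_) i
        · refine (ArithF.snd ArithF.id).congr fun p => ?_
          exact Fin.snoc_last _ _
        · refine (ArithF.comp (hg i) (ArithF.fst ArithF.id)).congr fun p => ?_
          exact Fin.snoc_castSucc _ _ _)
    exact ArithP.all (P := fun a y => φ.Realize (fun i => f i a)
      (Fin.snoc (fun i => g i a) y : Fin (n + 1) → ℕ)) h'

/-- an arithmetical predicate of one and of two variables is given by a formula -/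
theorem ArithP.formula₁ {P : α → Prop} (hP : ArithP P) :
    ∃ φ : arithLang.Formula (Fin 1), ∀ a, φ.Realize (fun _ => Encodable.encode a) ↔ P a := by
  obtain ⟨φ, hφ⟩ := hP
  refine ⟨φ.relabel (fun _ => 0), fun a => ?_⟩
  rw [Formula.realize_relabel, hφ]
  constructor
  · rintro ⟨b, hb, hP⟩
    rwa [← Encodable.encode_injective hb]
  · intro h
    exact ⟨a, rfl, h⟩

theorem ArithP.formula₂ {P : α → β → Prop} (hP : ArithP (fun p : α × β => P p.1 p.2)) :
    ∃ φ : arithLang.Formula (Fin 2), ∀ v : Fin 2 → ℕ, φ.Realize v ↔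
      ∃ a b, Encodable.encode a = v 0 ∧ Encodable.encode b = v 1 ∧ P a b := by
  obtain ⟨φ, hφ⟩ := Pool.Agent.Helper63.Ar.Df.comp1 (L := arithLang)
    (R := fun n => ∃ p : α × β, Encodable.encode p = n ∧ P p.1 p.2) hP
    (Pool.Agent.Helper63.Ar.DfF.pair (Pool.Agent.Helper63.Ar.DfF.var 0)
      (Pool.Agent.Helper63.Ar.DfF.var 1))
  refine ⟨φ.relabel (fun i => if i = 0 then 0 else 1), fun v => ?_⟩
  rw [Formula.realize_relabel, hφ]
  constructor
  · rintro ⟨⟨a, b⟩, hp, hP⟩
    rw [Encodable.encode_prod_val, Nat.pair_eq_pair] at hp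
    exact ⟨a, b, hp.1, hp.2, hP⟩
  · rintro ⟨a, b, ha, hb, hP⟩
    refine ⟨(a, b), ?_, hP⟩
    rw [Encodable.encode_prod_val, ha, hb]
    rfl

instance countable_formula : Countable (arithLang.Formula ℕ) := by
  have h1 : Countable (Σ l, arithLang.Functions l) := by
    have : ∀ l, Countable (arithLang.Functions l) := fun l => inferInstanceAs (Countable {i : ℕ // _})
    infer_instance
  have h2 : Countable (Σ l, arithLang.Relations l) := by
    have : ∀ l, Countable (arithLang.Relations l) := fun l => inferInstanceAs (Countable {i : ℕ // _})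
    infer_instance
  have hc : Cardinal.mk (Σ n, arithLang.BoundedFormula ℕ n) ≤ Cardinal.aleph0 := by
    refine BoundedFormula.card_le.trans ?_
    rw [max_le_iff]
    refine ⟨le_rfl, ?_⟩
    simp only [Cardinal.lift_id, Cardinal.mk_denumerable]
    refine Cardinal.add_le_aleph0.2 ⟨le_rfl, ?_⟩
    exact Cardinal.mk_le_aleph0_iff.2 (by
      unfold Language.Symbols
      infer_instance)
  have : Countable (Σ n, arithLang.BoundedFormula ℕ n) := Cardinal.mk_le_aleph0_iff.1 hc
  exact Function.Injective.countable (f := fun φ : arithLang.Formula ℕ =>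
    (⟨0, φ⟩ : Σ n, arithLang.BoundedFormula ℕ n)) (fun a b h => by
      simpa using h)

theorem countable_arithP : Countable {P : α → Prop // ArithP P} := by
  classical
  refine Function.Injective.countable (f := fun P : {P : α → Prop // ArithP P} =>
    (P.2.choose : arithLang.Formula ℕ)) ?_
  intro P Q h
  apply Subtype.ext
  funext a
  have hP := P.2.choose_spec (fun _ => Encodable.encode a)
  have hQ := Q.2.choose_spec (fun _ => Encodable.encode a)
  simp only at h
  rw [h] at hP
  have h1 : (∃ b : α, Encodable.encode b = Encodable.encode a ∧ P.1 b) ↔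
      (∃ b : α, Encodable.encode b = Encodable.encode a ∧ Q.1 b) := hP.symm.trans hQ
  have h2 : ∀ R : α → Prop, (∃ b : α, Encodable.encode b = Encodable.encode a ∧ R b) ↔ R a := by
    intro R
    constructor
    · rintro ⟨b, hb, hR⟩
      rwa [← Encodable.encode_injective hb]
    · intro hR
      exact ⟨a, rfl, hR⟩
  rw [h2, h2] at h1
  exact propext h1

theorem countable_arithF : Countable {f : α → β // ArithF f} := by
  have := countable_arithP (α := α × β)
  refine Function.Injective.countable (f := fun f : {f : α → β // ArithF f} =>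
    (⟨fun p => f.1 p.1 = p.2, f.2⟩ : {P : α × β → Prop // ArithP P})) ?_
  intro f g h
  apply Subtype.ext
  funext a
  have h1 := congrArg Subtype.val h
  have h2 := congrFun h1 (a, g.1 a)
  exact (iff_of_eq h2).2 rfl

end AR

end Pool.Agent.Helper69.Enayat
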