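import Pool.Agent.Helper69.Enayat.Spec
import Pool.Agent.Helper69.Enayat.AR

/-!
# Forcing lemma D3: reals coded by initial segments
-/

set_option autoImplicit false

namespace Pool.Agent.Helper69.Enayat

open FirstOrder FirstOrder.Language Pool.Agent.Helper30.SatB Filter

namespace D3

section ArithPrefix

variable {α : Type} [Primcodable α]

theorem arPre {f g : α → List Bool} (hf : ArithF f) (hg : ArithF g) :
    ArithP (fun a => f a <+: g a) := by
  refine (ArithP.ex (P := fun (a : α) (r : List Bool) => f a ++ r = g a) ?_).congr fun a => Iff.rfl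
  exact ArithP.eq (ArithF.comp₂ (g := fun l l' : List Bool => l ++ l')
    (ArithF.of_primrec Primrec.list_append) (ArithF.comp hf (ArithF.fst ArithF.id))
    (ArithF.snd ArithF.id)) (ArithF.comp hg (ArithF.fst ArithF.id))

theorem arInc {f g : α → List Bool} (hf : ArithF f) (hg : ArithF g) :
    ArithP (fun a => Inc (f a) (g a)) :=
  (arPre hf hg).not.and (arPre hg hf).not

end ArithPrefix

/-- two prefixes of the same list are comparable -/
theorem comparable {s t u : List Bool} (hs : s <+: u) (ht : t <+: u) : s <+: t ∨ t <+: s :=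
  List.prefix_or_prefix_of_prefix hs ht

theorem trich (w v : List Bool) : v <+: w ∨ (∃ b, w ++ [b] <+: v) ∨
    ∃ p b b', b ≠ b' ∧ p ++ [b] <+: w ∧ p ++ [b'] <+: v := by
  induction w generalizing v with
  | nil =>
    cases v with
    | nil => exact Or.inl (List.prefix_refl _)
    | cons b v => exact Or.inr (Or.inl ⟨b, v, rfl⟩)
  | cons a w ih =>
    cases v with
    | nil => exact Or.inl (List.nil_prefix)
    | cons b v =>
      by_cases hab : a = b
      · subst hab
        rcases ih v with h | ⟨b, h⟩ | ⟨p, b, b', hb, h1, h2⟩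
        · exact Or.inl (List.cons_prefix_cons.2 ⟨rfl, h⟩)
        · exact Or.inr (Or.inl ⟨b, List.cons_prefix_cons.2 ⟨rfl, h⟩⟩)
        · exact Or.inr (Or.inr ⟨a :: p, b, b', hb, List.cons_prefix_cons.2 ⟨rfl, h1⟩,
            List.cons_prefix_cons.2 ⟨rfl, h2⟩⟩)
      · exact Or.inr (Or.inr ⟨[], a, b, hab, ⟨w, rfl⟩, ⟨v, rfl⟩⟩)

variable (C : Cond) (g : List Bool → List Bool)

/-- `σ` occurs above `s` -/
def R (σ s : List Bool) : Prop := ∃ x, C.A x ∧ s <+: x ∧ σ <+: g x

/-- `σ` is persistent above `t` -/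
def P (σ t : List Bool) : Prop := ∀ s, C.T s → t <+: s → R C g σ s

variable {C g}

theorem P.mono {σ t s : List Bool} (h : P C g σ t) (hts : t <+: s) : P C g σ s :=
  fun s' hs' hss' => h s' hs' (hts.trans hss')

theorem R.anti {σ t s : List Bool} (h : R C g σ s) (hts : t <+: s) : R C g σ t := by
  obtain ⟨x, h1, h2, h3⟩ := h
  exact ⟨x, h1, hts.trans h2, h3⟩

section ArithRP

variable {α : Type} [Primcodable α] (hg : ArithF g)

include hg

theorem arR {f k : α → List Bool} (hf : ArithF f) (hk : ArithF k) :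
    ArithP (fun a => R C g (f a) (k a)) := by
  refine ArithP.ex (P := fun (a : α) (x : List Bool) => C.A x ∧ k a <+: x ∧ f a <+: g x) ?_
  refine (ArithP.comp C.arA (ArithF.snd ArithF.id)).and ((arPre
    (ArithF.comp hk (ArithF.fst ArithF.id)) (ArithF.snd ArithF.id)).and
    (arPre (ArithF.comp hf (ArithF.fst ArithF.id)) (ArithF.comp hg (ArithF.snd ArithF.id))))

theorem arP {f k : α → List Bool} (hf : ArithF f) (hk : ArithF k) :
    ArithP (fun a => P C g (f a) (k a)) := by
  refine ArithP.all (P := fun (a : α) (s : List Bool) => C.T s → k a <+: s → R C g (f a) s) ?_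
  exact (ArithP.comp C.arT (ArithF.snd ArithF.id)).imp ((arPre
    (ArithF.comp hk (ArithF.fst ArithF.id)) (ArithF.snd ArithF.id)).imp
    (arR hg (ArithF.comp hf (ArithF.fst ArithF.id)) (ArithF.snd ArithF.id)))

end ArithRP

/-- the restriction of the condition to the elements above `t` where `g` extends `σ` and has
length `n` -/
theorem unbounded (hg : ArithF g)
    (hi : ∀ D : Cond, D.Le C → ¬ ∃ n, ∀ x, D.A x → (g x).length = n) (σ : List Bool) (n : ℕ) :
    ∀ t, C.T t → P C g σ t → ∃ x, C.A x ∧ t <+: x ∧ σ <+: g x ∧ n ≤ (g x).length := by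
  induction n with
  | zero =>
    intro t ht hP
    obtain ⟨x, h1, h2, h3⟩ := hP t ht (List.prefix_refl _)
    exact ⟨x, h1, h2, h3, Nat.zero_le _⟩
  | succ n ih =>
    intro t ht hP
    by_contra hcon
    push Not at hcon
    refine hi ⟨fun x => C.A x ∧ t <+: x ∧ σ <+: g x ∧ (g x).length = n, fun s => C.T s ∧ t <+: s,
      ?_, ?_, ⟨t, ht, List.prefix_refl _⟩, ?_, ?_⟩ ⟨fun x hx => hx.1, fun s hs => hs.1⟩
      ⟨n, fun x hx => hx.2.2.2⟩
    · exact C.arA.and ((arPre (ArithF.const t) ArithF.id).and ((arPre (ArithF.const σ) hg).and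
        (ArithP.eq (ArithF.comp (g := fun l : List Bool => l.length)
          (ArithF.of_primrec Primrec.list_length) hg) (ArithF.const n))))
    · exact C.arT.and (arPre (ArithF.const t) ArithF.id)
    · rintro s ⟨hs, hts⟩
      obtain ⟨t₁, t₂, h1, h2, h3, h4, h5⟩ := C.split s hs
      exact ⟨t₁, t₂, ⟨h1, hts.trans h3⟩, ⟨h2, hts.trans h4⟩, h3, h4, h5⟩
    · rintro s ⟨hs, hts⟩
      obtain ⟨x, h1, h2, h3, h4⟩ := ih s hs (hP.mono hts)
      refine ⟨x, ⟨h1, hts.trans h2, h3, ?_⟩, h2⟩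
      have := hcon x h1 (hts.trans h2) h3
      omega

/-- persistent strings have long persistent extensions -/
theorem extend (hg : ArithF g)
    (hi : ∀ D : Cond, D.Le C → ¬ ∃ n, ∀ x, D.A x → (g x).length = n) {σ t : List Bool}
    (ht : C.T t) (hP : P C g σ t) {m : ℕ} (hm : σ.length ≤ m) :
    ∃ s, C.T s ∧ t <+: s ∧ ∃ τ, τ.length = m ∧ σ <+: τ ∧ P C g τ s := by
  classical
  by_contra hcon
  push Not at hcon
  -- kill finitely many strings
  have key : ∀ F : Finset (List Bool), (∀ τ ∈ F, τ.length = m ∧ σ <+: τ) →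
      ∃ s, C.T s ∧ t <+: s ∧ ∀ τ ∈ F, ¬ R C g τ s := by
    intro F
    induction F using Finset.induction_on with
    | empty =>
      intro _
      exact ⟨t, ht, List.prefix_refl _, fun τ hτ => absurd hτ (Finset.notMem_empty _)⟩
    | insert τ F _ ih =>
      intro hF
      obtain ⟨s, hs, hts, hR⟩ := ih fun τ' hτ' => hF τ' (Finset.mem_insert_of_mem hτ')
      have hτ := hF τ (Finset.mem_insert_self _ _)
      have h1 : ¬ P C g τ s := hcon s hs hts τ hτ.1 hτ.2
      unfold P at h1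
      push Not at h1
      obtain ⟨s', hs', hss', hR'⟩ := h1
      refine ⟨s', hs', hts.trans hss', fun τ' hτ' => ?_⟩
      rcases Finset.mem_insert.1 hτ' with rfl | hτ'
      · exact hR'
      · exact fun h => hR τ' hτ' (h.anti hss')
  have hfin : {τ : List Bool | τ.length = m ∧ σ <+: τ}.Finite :=
    (List.finite_length_eq Bool m).subset fun τ hτ => hτ.1
  obtain ⟨s, hs, hts, hR⟩ := key hfin.toFinset fun τ hτ => by simpa using hτ
  obtain ⟨x, h1, h2, h3, h4⟩ := unbounded hg hi σ m s hs (hP.mono hts)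
  have h5 : σ <+: (g x).take m := List.prefix_take_iff.2 ⟨h3, hm⟩
  refine hR ((g x).take m) ?_ ⟨x, h1, h2, List.take_prefix _ _⟩
  rw [Set.Finite.mem_toFinset]
  exact ⟨by rw [List.length_take]; omega, h5⟩

/-- case a: all persistent strings above some node are compatible -/
theorem case_a (hg : ArithF g)
    (hi : ∀ D : Cond, D.Le C → ¬ ∃ n, ∀ x, D.A x → (g x).length = n) {σ t : List Bool}
    (ht : C.T t) (hP : P C g σ t)
    (hc : ∀ s s' τ τ', C.T s → C.T s' → t <+: s → t <+: s' → σ <+: τ → σ <+: τ' →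
      P C g τ s → P C g τ' s' → ¬ Inc τ τ') :
    ∃ D : Cond, D.Le C ∧ ∃ Z : ℕ → Bool, ArithP (fun n => Z n = true) ∧
        ∀ m, ∃ N, ∀ x, D.A x → N ≤ x.length → (g x).take m = (List.range m).map Z := by
  classical
  -- the compatible family
  let Λ : List Bool → Prop := fun τ => σ <+: τ ∧ ∃ s, C.T s ∧ t <+: s ∧ P C g τ s
  have hΛar : ArithP Λ := by
    refine (arPre (ArithF.const σ) ArithF.id).and
      (ArithP.ex (P := fun (τ s : List Bool) => C.T s ∧ t <+: s ∧ P C g τ s) ?_)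
    exact (ArithP.comp C.arT (ArithF.snd ArithF.id)).and ((arPre (ArithF.const t)
      (ArithF.snd ArithF.id)).and (arP hg (ArithF.fst ArithF.id) (ArithF.snd ArithF.id)))
  have hcomp : ∀ τ τ', Λ τ → Λ τ' → τ <+: τ' ∨ τ' <+: τ := by
    rintro τ τ' ⟨h1, s, hs, hts, hPs⟩ ⟨h1', s', hs', hts', hPs'⟩
    have := hc s s' τ τ' hs hs' hts hts' h1 h1' hPs hPs'
    unfold Inc at this
    tauto
  let Z : ℕ → Bool := fun n => decide (∃ τ, Λ τ ∧ τ[n]? = some true)
  have hZar : ArithP (fun n => Z n = true) := by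
    refine ArithP.congr (P := fun n => ∃ τ, Λ τ ∧ τ[n]? = some true) ?_ fun n => by
      simp only [Z, decide_eq_true_eq]
    refine ArithP.ex (P := fun (n : ℕ) (τ : List Bool) => Λ τ ∧ τ[n]? = some true) ?_
    refine (ArithP.comp hΛar (ArithF.snd ArithF.id)).and (ArithP.eq ?_ (ArithF.const _))
    exact ArithF.of_primrec (Primrec.list_getElem?.comp Primrec.snd Primrec.fst)
  have hZF : ArithF Z := by
    refine (ArithF.decide hZar).congr fun n => ?_
    simp
  have hZspec : ∀ τ, Λ τ → τ = (List.range τ.length).map Z := by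
    intro τ hτ
    apply List.ext_getElem?
    intro n
    by_cases hn : n < τ.length
    · rw [List.getElem?_map, List.getElem?_range hn, Option.map_some, List.getElem?_eq_getElem hn]
      congr 1
      by_cases hb : τ[n] = true
      · rw [hb]
        symm
        simp only [Z, decide_eq_true_eq]
        exact ⟨τ, hτ, by rw [List.getElem?_eq_getElem hn, hb]⟩
      · rw [Bool.not_eq_true] at hb
        rw [hb]
        symm
        simp only [Z, decide_eq_false_iff_not]
        rintro ⟨τ', hτ', hτ'n⟩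
        have h2 : τ[n]? = some false := by rw [List.getElem?_eq_getElem hn, hb]
        rcases hcomp τ τ' hτ hτ' with h | h
        · rw [List.prefix_iff_eq_take.1 h] at h2
          rw [List.getElem?_take, if_pos hn, hτ'n] at h2
          simp at h2
        · have hn' : n < τ'.length := by
            by_contra hcon
            rw [List.getElem?_eq_none (not_lt.1 hcon)] at hτ'n
            simp at hτ'n
          rw [List.prefix_iff_eq_take.1 h] at hτ'n
          rw [List.getElem?_take, if_pos hn', h2] at hτ'n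
          simp at hτ'n
    · rw [List.getElem?_eq_none (not_lt.1 hn), List.getElem?_eq_none (by simpa using hn)]
  -- all initial segments of `Z` occur above all nodes
  have hR : ∀ s, C.T s → t <+: s → ∀ m, R C g ((List.range m).map Z) s := by
    intro s hs hts m
    obtain ⟨s', hs', hss', τ, hτl, hστ, hPτ⟩ := extend hg hi hs (hP.mono hts)
      (m := max m σ.length) (le_max_right _ _)
    have hΛ : Λ τ := ⟨hστ, s', hs', hts.trans hss', hPτ⟩
    obtain ⟨x, h1, h2, h3⟩ := hPτ s' hs' (List.prefix_refl _)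
    refine ⟨x, h1, hss'.trans h2, List.IsPrefix.trans ?_ h3⟩
    rw [hZspec τ hΛ, hτl]
    rw [List.prefix_iff_eq_take]
    rw [List.length_map, List.length_range, ← List.map_take, List.take_range,
      min_eq_left (le_max_left _ _)]
  -- choose the elements
  obtain ⟨c, hcar, hc'⟩ := ArithP.skolem (P := fun (s x : List Bool) =>
    C.A x ∧ s <+: x ∧ (List.range s.length).map Z <+: g x) (by
      refine (ArithP.comp C.arA (ArithF.snd ArithF.id)).and ((arPre (ArithF.fst ArithF.id)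
        (ArithF.snd ArithF.id)).and (arPre ?_ (ArithF.comp hg (ArithF.snd ArithF.id))))
      have h1 : ArithF (fun p : Unit × ℕ => (List.range p.2).map Z) :=
        ArithF.mapRange (f := fun _ => Z) (ArithF.comp hZF (ArithF.snd ArithF.id))
      exact ArithF.comp (g := fun p : Unit × ℕ => (List.range p.2).map Z)
        (f := fun p : List Bool × List Bool => ((), p.1.length)) h1
        ((ArithF.const ()).pair (ArithF.comp (g := fun l : List Bool => l.length)
          (ArithF.of_primrec Primrec.list_length) (ArithF.fst ArithF.id))))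
  have hcs : ∀ s, C.T s → t <+: s → C.A (c s) ∧ s <+: c s ∧
      (List.range s.length).map Z <+: g (c s) := fun s hs hts =>
    hc' s (by
      obtain ⟨x, h1, h2, h3⟩ := hR s hs hts s.length
      exact ⟨x, h1, h2, h3⟩)
  refine ⟨⟨fun x => ∃ s, C.T s ∧ t <+: s ∧ x = c s, fun s => C.T s ∧ t <+: s, ?_, ?_,
    ⟨t, ht, List.prefix_refl _⟩, ?_, ?_⟩, ⟨?_, fun s hs => hs.1⟩, Z, hZar, ?_⟩
  · refine ArithP.ex (P := fun (x s : List Bool) => C.T s ∧ t <+: s ∧ x = c s) ?_
    exact (ArithP.comp C.arT (ArithF.snd ArithF.id)).and ((arPre (ArithF.const t)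
      (ArithF.snd ArithF.id)).and (ArithP.eq (ArithF.fst ArithF.id)
        (ArithF.comp hcar (ArithF.snd ArithF.id))))
  · exact C.arT.and (arPre (ArithF.const t) ArithF.id)
  · rintro s ⟨hs, hts⟩
    obtain ⟨t₁, t₂, h1, h2, h3, h4, h5⟩ := C.split s hs
    exact ⟨t₁, t₂, ⟨h1, hts.trans h3⟩, ⟨h2, hts.trans h4⟩, h3, h4, h5⟩
  · rintro s ⟨hs, hts⟩
    exact ⟨c s, ⟨s, hs, hts, rfl⟩, (hcs s hs hts).2.1⟩
  · rintro x ⟨s, hs, hts, rfl⟩
    exact (hcs s hs hts).1
  · intro m
    have hfin : {s : List Bool | s.length < m}.Finite := List.finite_length_lt Bool m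
    obtain ⟨N, hN⟩ := (hfin.image fun s => (c s).length).bddAbove
    refine ⟨N + 1, ?_⟩
    rintro x ⟨s, hs, hts, rfl⟩ hx
    have hm : m ≤ s.length := by
      by_contra hcon
      have := hN ⟨s, not_le.1 hcon, rfl⟩
      simp only at this
      omega
    have h3 := (hcs s hs hts).2.2
    have h4 : (List.range m).map Z <+: g (c s) := by
      refine List.IsPrefix.trans ?_ h3
      rw [List.prefix_iff_eq_take]
      rw [List.length_map, List.length_range, ← List.map_take, List.take_range, min_eq_left hm]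
    have h5 := List.prefix_iff_eq_take.1 h4
    rw [List.length_map, List.length_range] at h5
    exact h5.symm

/-- one step of the construction in case b -/
theorem step_b
    (hc : ∀ t σ, C.T t → P C g σ t → ∃ s s' τ τ', C.T s ∧ C.T s' ∧ t <+: s ∧ t <+: s' ∧
      σ <+: τ ∧ σ <+: τ' ∧ P C g τ s ∧ P C g τ' s' ∧ Inc τ τ') {t σ : List Bool} (ht : C.T t)
    (hP : P C g σ t) :
    ∃ s s' τ τ', C.T s ∧ C.T s' ∧ t <+: s ∧ t <+: s' ∧ Inc s s' ∧
      σ <+: τ ∧ σ <+: τ' ∧ P C g τ s ∧ P C g τ' s' ∧ Inc τ τ' := by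
  obtain ⟨s, s', τ, τ', hs, hs', hts, hts', hτ, hτ', hPs, hPs', hinc⟩ := hc t σ ht hP
  obtain ⟨s₁, s₂, h1, h2, h3, h4, h5⟩ := C.split s hs
  by_cases hi1 : Inc s₁ s'
  · exact ⟨s₁, s', τ, τ', h1, hs', hts.trans h3, hts', hi1, hτ, hτ', hPs.mono h3, hPs', hinc⟩
  by_cases hi2 : Inc s₂ s'
  · exact ⟨s₂, s', τ, τ', h2, hs', hts.trans h4, hts', hi2, hτ, hτ', hPs.mono h4, hPs', hinc⟩
  have hc1 : s₁ <+: s' ∨ s' <+: s₁ := by
    unfold Inc at hi1
    tauto
  have hc2 : s₂ <+: s' ∨ s' <+: s₂ := by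
    unfold Inc at hi2
    tauto
  have h6 : s' <+: s₁ := by
    rcases hc1 with h | h
    · exfalso
      rcases hc2 with h' | h'
      · rcases comparable h h' with h'' | h''
        · exact h5.1 h''
        · exact h5.2 h''
      · exact h5.1 (h.trans h')
    · exact h
  have h7 : s' <+: s₂ := by
    rcases hc2 with h | h
    · exact absurd (h.trans h6) h5.2
    · exact h
  exact ⟨s₁, s₂, τ, τ', h1, h2, hts.trans h3, hts.trans h4, h5, hτ, hτ', hPs.mono h3,
    hPs'.mono h7, hinc⟩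

/-- the type of the data chosen in one step -/
abbrev Data : Type :=
  (List Bool × List Bool) × (List Bool × List Bool) × (List Bool × List Bool)

variable (C g) in
/-- the requirements on the data chosen in one step: two nodes with strings, an exit string, and
an element of `A` -/
def Rel (q : List Bool × List Bool) (y : Data) : Prop :=
  (C.T y.1.1 ∧ C.T y.2.1.1 ∧ q.1 <+: y.1.1 ∧ q.1 <+: y.2.1.1 ∧ Inc y.1.1 y.2.1.1) ∧
  (q.2 <+: y.1.2 ∧ q.2 <+: y.2.1.2 ∧ q.2 <+: y.2.2.1 ∧ Inc y.1.2 y.2.1.2 ∧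
    Inc y.1.2 y.2.2.1 ∧ Inc y.2.1.2 y.2.2.1) ∧
  (P C g y.1.2 y.1.1 ∧ P C g y.2.1.2 y.2.1.1) ∧
  (C.A y.2.2.2 ∧ q.1 <+: y.2.2.2 ∧ y.2.2.1 <+: g y.2.2.2)

theorem exists_rel
    (hc : ∀ t σ, C.T t → P C g σ t → ∃ s s' τ τ', C.T s ∧ C.T s' ∧ t <+: s ∧ t <+: s' ∧
      σ <+: τ ∧ σ <+: τ' ∧ P C g τ s ∧ P C g τ' s' ∧ Inc τ τ') (q : List Bool × List Bool)
    (ht : C.T q.1) (hP : P C g q.2 q.1) : ∃ y, Rel C g q y := by
  obtain ⟨u₀, u₁, τ₀, τ₁, h0, h1, ht0, ht1, hinc, hσ0, hσ1, hP0, hP1, hinc'⟩ := step_b hc ht hP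
  obtain ⟨s, s', τ, τ', hs, hs', hts, hts', hτ, hτ', hPs, hPs', hinc''⟩ := hc u₁ τ₁ h1 hP1
  obtain ⟨x, hx1, hx2, hx3⟩ := hPs' s' hs' (List.prefix_refl _)
  have inc_mono : ∀ {a b b' : List Bool}, Inc a b → b <+: b' → Inc a b' := by
    rintro a b b' ⟨hi1, hi2⟩ hbb'
    refine ⟨fun h => ?_, fun h => hi2 (hbb'.trans h)⟩
    rcases comparable h hbb' with h' | h'
    · exact hi1 h'
    · exact hi2 h'
  refine ⟨((u₀, τ₀), (s, τ), (τ', x)), ⟨h0, hs, ht0, ht1.trans hts, inc_mono hinc hts⟩,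
    ⟨hσ0, hσ1.trans hτ, hσ1.trans hτ', inc_mono hinc' hτ, inc_mono hinc' hτ', hinc''⟩,
    ⟨hP0, hPs⟩, hx1, (ht1.trans hts').trans hx2, hx3⟩

theorem arRel (hg : ArithF g) : ArithP (fun p : (List Bool × List Bool) × Data =>
    Rel C g p.1 p.2) := by
  have q1 : ArithF (fun p : (List Bool × List Bool) × Data => p.1.1) :=
    ArithF.of_primrec (Primrec.fst.comp Primrec.fst)
  have q2 : ArithF (fun p : (List Bool × List Bool) × Data => p.1.2) :=
    ArithF.of_primrec (Primrec.snd.comp Primrec.fst)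
  have a1 : ArithF (fun p : (List Bool × List Bool) × Data => p.2.1.1) :=
    ArithF.of_primrec (Primrec.fst.comp (Primrec.fst.comp Primrec.snd))
  have a2 : ArithF (fun p : (List Bool × List Bool) × Data => p.2.1.2) :=
    ArithF.of_primrec (Primrec.snd.comp (Primrec.fst.comp Primrec.snd))
  have b1 : ArithF (fun p : (List Bool × List Bool) × Data => p.2.2.1.1) :=
    ArithF.of_primrec (Primrec.fst.comp (Primrec.fst.comp (Primrec.snd.comp Primrec.snd)))
  have b2 : ArithF (fun p : (List Bool × List Bool) × Data => p.2.2.1.2) :=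
    ArithF.of_primrec (Primrec.snd.comp (Primrec.fst.comp (Primrec.snd.comp Primrec.snd)))
  have c1 : ArithF (fun p : (List Bool × List Bool) × Data => p.2.2.2.1) :=
    ArithF.of_primrec (Primrec.fst.comp (Primrec.snd.comp (Primrec.snd.comp Primrec.snd)))
  have c2 : ArithF (fun p : (List Bool × List Bool) × Data => p.2.2.2.2) :=
    ArithF.of_primrec (Primrec.snd.comp (Primrec.snd.comp (Primrec.snd.comp Primrec.snd)))
  refine ArithP.and ?_ (ArithP.and ?_ (ArithP.and ?_ ?_))
  · exact (ArithP.comp C.arT a1).and ((ArithP.comp C.arT b1).and ((arPre q1 a1).and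
      ((arPre q1 b1).and (arInc a1 b1))))
  · exact (arPre q2 a2).and ((arPre q2 b2).and ((arPre q2 c1).and ((arInc a2 b2).and
      ((arInc a2 c1).and (arInc b2 c1)))))
  · exact (arP hg a2 a1).and (arP hg b2 b1)
  · exact (ArithP.comp C.arA c2).and ((arPre q1 c2).and (arPre c1 (ArithF.comp hg c2)))

/-- case b: incompatible persistent strings everywhere -/
theorem case_b (hg : ArithF g)
    (hc : ∀ t σ, C.T t → P C g σ t → ∃ s s' τ τ', C.T s ∧ C.T s' ∧ t <+: s ∧ t <+: s' ∧
      σ <+: τ ∧ σ <+: τ' ∧ P C g τ s ∧ P C g τ' s' ∧ Inc τ τ') :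
    ∃ D : Cond, D.Le C ∧ ∃ B : List Bool → Prop, ArithP B ∧
        (∀ m, ∃ N, ∀ x, D.A x → N ≤ x.length → ¬ B ((g x).take m)) ∧
        ∀ x, D.A x → ∃ k ≤ (g x).length, B ((g x).take k) := by
  classical
  obtain ⟨F, hF, hFs⟩ := ArithP.skolem (P := Rel C g) (arRel (C := C) hg)
  have hFrel : ∀ q : List Bool × List Bool, C.T q.1 → P C g q.2 q.1 → Rel C g q (F q) :=
    fun q h1 h2 => hFs q (exists_rel hc q h1 h2)
  obtain ⟨t₀, ht₀⟩ := C.ne
  have hP₀ : P C g [] t₀ := by
    intro s hs _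
    obtain ⟨x, h1, h2⟩ := C.dense s hs
    exact ⟨x, h1, h2, List.nil_prefix⟩
  let step : List Bool × List Bool → Bool → List Bool × List Bool :=
    fun q b => if b = true then (F q).2.1 else (F q).1
  let St : List Bool → List Bool × List Bool := fun w => w.foldl step (t₀, [])
  have hSt : ArithF St := by
    refine ArithF.foldl (g := step) (t₀, []) ?_
    have h1 : ArithF (fun p : (List Bool × List Bool) × Bool => (F p.1).2.1) :=
      ArithF.fst (ArithF.snd (ArithF.comp hF (ArithF.fst ArithF.id)))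
    have h2 : ArithF (fun p : (List Bool × List Bool) × Bool => (F p.1).1) :=
      ArithF.fst (ArithF.comp hF (ArithF.fst ArithF.id))
    have h3 : ArithP (fun p : (List Bool × List Bool) × Bool => p.2 = true) :=
      ArithP.eq (ArithF.snd ArithF.id) (ArithF.const true)
    refine (ArithF.ite h3 h1 h2).congr fun p => ?_
    show (if p.2 = true then (F p.1).2.1 else (F p.1).1) = _
    by_cases hp : p.2 = true <;> simp [hp]
  -- one step
  have hstep : ∀ q : List Bool × List Bool, C.T q.1 → P C g q.2 q.1 → ∀ b,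
      C.T (step q b).1 ∧ P C g (step q b).2 (step q b).1 ∧ q.1 <+: (step q b).1 ∧
        q.2 <+: (step q b).2 ∧ q.2.length + 1 ≤ (step q b).2.length := by
    intro q h1 h2 b
    obtain ⟨⟨a1, a2, a3, a4, a5⟩, ⟨b1, b2, b3, b4, b5, b6⟩, ⟨c1, c2⟩, _⟩ := hFrel q h1 h2
    have strict : ∀ {σ τ τ' : List Bool}, σ <+: τ → σ <+: τ' → Inc τ τ' →
        σ.length + 1 ≤ τ.length := by
      intro σ τ τ' h h' hi
      by_contra hcon
      have h3 : σ = τ := List.IsPrefix.eq_of_length_le h (by omega)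
      exact hi.1 (h3 ▸ h')
    cases b with
    | true =>
      refine ⟨a2, c2, a4, b2, ?_⟩
      exact strict b2 b3 b6
    | false =>
      refine ⟨a1, c1, a3, b1, ?_⟩
      exact strict b1 b2 b4
  have hmono : ∀ (u : List Bool) (q : List Bool × List Bool), C.T q.1 → P C g q.2 q.1 →
      C.T (u.foldl step q).1 ∧ P C g (u.foldl step q).2 (u.foldl step q).1 ∧
        q.1 <+: (u.foldl step q).1 ∧ q.2 <+: (u.foldl step q).2 ∧
        q.2.length + u.length ≤ (u.foldl step q).2.length := by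
    intro u
    induction u with
    | nil => intro q h1 h2; exact ⟨h1, h2, List.prefix_refl _, List.prefix_refl _, le_rfl⟩
    | cons b u ih =>
      intro q h1 h2
      obtain ⟨e1, e2, e3, e4, e5⟩ := hstep q h1 h2 b
      obtain ⟨f1, f2, f3, f4, f5⟩ := ih (step q b) e1 e2
      refine ⟨f1, f2, e3.trans f3, e4.trans f4, ?_⟩
      rw [List.length_cons]
      show q.2.length + (u.length + 1) ≤ (u.foldl step (step q b)).2.length
      omega
  have hgood : ∀ w, C.T (St w).1 ∧ P C g (St w).2 (St w).1 ∧ w.length ≤ (St w).2.length := by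
    intro w
    obtain ⟨h1, h2, _, _, h3⟩ := hmono w (t₀, []) ht₀ hP₀
    exact ⟨h1, h2, by simpa using h3⟩
  have hpre : ∀ w v, w <+: v → (St w).1 <+: (St v).1 ∧ (St w).2 <+: (St v).2 := by
    rintro w _ ⟨u, rfl⟩
    have := hmono u (St w) (hgood w).1 (hgood w).2.1
    have h : St (w ++ u) = u.foldl step (St w) := List.foldl_append
    rw [h]
    exact ⟨this.2.2.1, this.2.2.2.1⟩
  have hsnoc : ∀ w b, St (w ++ [b]) = step (St w) b := fun w b => List.foldl_append
  have hrel : ∀ w, Rel C g (St w) (F (St w)) := fun w => hFrel _ (hgood w).1 (hgood w).2.1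
  have hincStep : ∀ w b b', b ≠ b' → Inc (St (w ++ [b])).2 (St (w ++ [b'])).2 := by
    intro w b b' hb
    obtain ⟨_, ⟨_, _, _, h4, _⟩, _⟩ := hrel w
    rw [hsnoc, hsnoc]
    cases b <;> cases b'
    · exact absurd rfl hb
    · exact h4
    · exact ⟨h4.2, h4.1⟩
    · exact absurd rfl hb
  let X : List Bool → List Bool := fun w => (F (St w)).2.2.2
  let ρ : List Bool → List Bool := fun w => (F (St w)).2.2.1
  have hXar : ArithF X := ArithF.snd (ArithF.snd (ArithF.snd (ArithF.comp hF hSt)))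
  have hXρ : ∀ w, C.A (X w) ∧ (St w).1 <+: X w ∧ ρ w <+: g (X w) := fun w =>
    ⟨(hrel w).2.2.2.1, (hrel w).2.2.2.2.1, (hrel w).2.2.2.2.2⟩
  have hρinc : ∀ w b, Inc (St (w ++ [b])).2 (ρ w) := by
    intro w b
    obtain ⟨_, ⟨_, _, _, _, h5, h6⟩, _⟩ := hrel w
    rw [hsnoc]
    cases b
    · exact h5
    · exact h6
  have hρσ : ∀ w, (St w).2 <+: ρ w := fun w => (hrel w).2.1.2.2.1
  -- the tree of the strings
  let B : List Bool → Prop := fun u => ¬ ∃ w, u <+: (St w).2
  have hBar : ArithP B := by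
    refine ArithP.not (ArithP.ex (P := fun (u w : List Bool) => u <+: (St w).2) ?_)
    exact arPre (ArithF.fst ArithF.id) (ArithF.snd (ArithF.comp hSt (ArithF.snd ArithF.id)))
  have hexit : ∀ w, B (ρ w) := by
    rintro w ⟨v, hv⟩
    rcases trich w v with h | ⟨b, h⟩ | ⟨p, b, b', hb, h1, h2⟩
    · -- `v` is a prefix of `w`
      have h3 : ρ w <+: (St w).2 := hv.trans (hpre v w h).2
      have h4 : ρ w <+: (St (w ++ [true])).2 := h3.trans (hpre w _ ⟨_, rfl⟩).2
      exact (hρinc w true).2 h4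
    · have h3 := (hpre _ _ h).2
      rcases comparable h3 hv with h4 | h4
      · exact (hρinc w b).1 h4
      · exact (hρinc w b).2 h4
    · have h3 : (St (p ++ [b])).2 <+: (St v).2 := ((hpre _ _ h1).2.trans (hρσ w)).trans hv
      have h4 := (hpre _ _ h2).2
      rcases comparable h3 h4 with h5 | h5
      · exact (hincStep p b b' hb).1 h5
      · exact (hincStep p b b' hb).2 h5
  refine ⟨⟨fun x => ∃ w, x = X w, fun t => ∃ w, t = (St w).1, ?_, ?_, ⟨_, [], rfl⟩, ?_, ?_⟩,
    ⟨?_, ?_⟩, B, hBar, ?_, ?_⟩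
  · exact ArithP.ex (P := fun (x w : List Bool) => x = X w)
      (ArithP.eq (ArithF.fst ArithF.id) (ArithF.comp hXar (ArithF.snd ArithF.id)))
  · exact ArithP.ex (P := fun (t w : List Bool) => t = (St w).1)
      (ArithP.eq (ArithF.fst ArithF.id) (ArithF.fst (ArithF.comp hSt (ArithF.snd ArithF.id))))
  · rintro t ⟨w, rfl⟩
    refine ⟨_, _, ⟨w ++ [false], rfl⟩, ⟨w ++ [true], rfl⟩, (hpre w _ ⟨_, rfl⟩).1,
      (hpre w _ ⟨_, rfl⟩).1, ?_⟩
    rw [hsnoc, hsnoc]
    exact (hrel w).1.2.2.2.2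
  · rintro t ⟨w, rfl⟩
    exact ⟨X w, ⟨w, rfl⟩, (hXρ w).2.1⟩
  · rintro x ⟨w, rfl⟩
    exact (hXρ w).1
  · rintro t ⟨w, rfl⟩
    exact (hgood w).1
  · intro m
    have hfin : {w : List Bool | w.length < m}.Finite := List.finite_length_lt Bool m
    obtain ⟨N, hN⟩ := (hfin.image fun w => (X w).length).bddAbove
    refine ⟨N + 1, ?_⟩
    rintro x ⟨w, rfl⟩ hx
    have hm : m ≤ w.length := by
      by_contra hcon
      have := hN ⟨w, not_le.1 hcon, rfl⟩
      simp only at this
      omega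
    have h1 : (St w).2 <+: g (X w) := (hρσ w).trans (hXρ w).2.2
    have h2 : m ≤ (St w).2.length := hm.trans (hgood w).2.2
    have h3 : (g (X w)).take m = (St w).2.take m := by
      rw [List.prefix_iff_eq_take.1 h1, List.take_take, min_eq_left h2]
    rw [h3]
    exact fun h => h ⟨w, List.take_prefix _ _⟩
  · rintro x ⟨w, rfl⟩
    refine ⟨(ρ w).length, (hXρ w).2.2.length_le, ?_⟩
    rw [← List.prefix_iff_eq_take.1 (hXρ w).2.2]
    exact hexit w

end D3

/-- module D3 -/
theorem dense_real (C : Cond) {g : List Bool → List Bool} (hg : ArithF g) :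
    ∃ D : Cond, D.Le C ∧ ((∃ n, ∀ x, D.A x → (g x).length = n) ∨
      (∃ Z : ℕ → Bool, ArithP (fun n => Z n = true) ∧
        ∀ m, ∃ N, ∀ x, D.A x → N ≤ x.length → (g x).take m = (List.range m).map Z) ∨
      (∃ B : List Bool → Prop, ArithP B ∧
        (∀ m, ∃ N, ∀ x, D.A x → N ≤ x.length → ¬ B ((g x).take m)) ∧
        ∀ x, D.A x → ∃ k ≤ (g x).length, B ((g x).take k))) := by
  by_cases hi : ∃ D : Cond, D.Le C ∧ ∃ n, ∀ x, D.A x → (g x).length = n
  · obtain ⟨D, hD, h⟩ := hi
    exact ⟨D, hD, Or.inl h⟩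
  have hi' : ∀ D : Cond, D.Le C → ¬ ∃ n, ∀ x, D.A x → (g x).length = n :=
    fun D hD h => hi ⟨D, hD, h⟩
  by_cases hc : ∀ t σ, C.T t → D3.P C g σ t → ∃ s s' τ τ', C.T s ∧ C.T s' ∧ t <+: s ∧ t <+: s' ∧
      σ <+: τ ∧ σ <+: τ' ∧ D3.P C g τ s ∧ D3.P C g τ' s' ∧ Inc τ τ'
  · obtain ⟨D, hD, h⟩ := D3.case_b hg hc
    exact ⟨D, hD, Or.inr (Or.inr h)⟩
  · push Not at hc
    obtain ⟨t, σ, ht, hP, hcc⟩ := hc
    obtain ⟨D, hD, h⟩ := D3.case_a hg hi' ht hP (fun s s' τ τ' h1 h2 h3 h4 h5 h6 h7 h8 =>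
      hcc s s' τ τ' h1 h2 h3 h4 h5 h6 h7 h8)
    exact ⟨D, hD, Or.inr (Or.inl h)⟩

end Pool.Agent.Helper69.Enayat
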