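import Pool.Agent.Helper30.SatB.Defs

/-!
# Enayat models of Peano arithmetic: definitions

Models of `PA` in the language `arithLang` (symbols `0, S, +, ·`), classes, pointwise definability,
prime models, Enayat models, elementary cuts and conservative extensions.
-/

set_option autoImplicit false

namespace Pool.Agent.Helper69.Enayat

open FirstOrder FirstOrder.Language Pool.Agent.Helper30.SatB

section Models

variable (M : Type) [arithLang.Structure M]

/-- The order of a model of arithmetic: `x < y` iff `x + S z = y` for some `z`. -/
def plt {M : Type} [arithLang.Structure M] (x y : M) : Prop := ∃ z : M, pAdd x (pSucc z) = y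

/-- The standard numerals of a model of arithmetic. -/
def pNum : ℕ → M
  | 0 => pZero M
  | n + 1 => pSucc (pNum n)

/-- `D ∈ Def(M)`: the set `D` is definable in `M` with parameters. -/
def Def (D : Set M) : Prop := (Set.univ : Set M).Definable₁ arithLang D

/-- `X` is a class of `M`: `{x ∈ X : x < a} ∈ Def(M)` for every `a ∈ M`. -/
def IsClass (X : Set M) : Prop := ∀ a : M, Def M {x | x ∈ X ∧ plt x a}

/-- The language with one unary predicate symbol. -/
def predLang : FirstOrder.Language.{0, 0} where
  Functions _ := Empty
  Relations n := PLift (n = 1)

/-- The structure which interprets the unary predicate symbol by the set `X`. -/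
@[reducible] def predStructure {M : Type} (X : Set M) : predLang.Structure M where
  funMap := fun {_} f _ => f.elim
  RelMap := fun {_} r x => x ⟨0, by rw [r.down]; exact Nat.one_pos⟩ ∈ X

/-- A structure is pointwise definable if each of its elements is definable without parameters. -/
def PointwiseDefinable (L : FirstOrder.Language.{0, 0}) (N : Type) [L.Structure N] : Prop :=
  ∀ a : N, (∅ : Set N).Definable₁ L {a}

/-- The expansion `(M, X)` of the model `M` by the set `X` is pointwise definable. -/
def ExpansionPointwiseDefinable (X : Set M) : Prop :=
  letI : predLang.Structure M := predStructure X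
  PointwiseDefinable (arithLang.sum predLang) M

/-- `M` is a prime model (of its complete theory): it embeds elementarily in every structure which
is elementarily equivalent to `M`. -/
def IsPrime : Prop :=
  ∀ (N : Type) [arithLang.Structure N], (M ≅[arithLang] N) → Nonempty (M ↪ₑ[arithLang] N)

/-- `M` is an Enayat model: a countable model of `PA` which is not a prime model, and each of whose
expansions `(M, X)` by an undefinable class `X` is pointwise definable. -/
structure IsEnayat : Prop where
  peano : PeanoModel M
  countable : Countable M
  not_prime : ¬ IsPrime M
  pointwise : ∀ X : Set M, IsClass M X → ¬ Def M X → ExpansionPointwiseDefinable M X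

/-- The elementary submodel `K` of `M` is an elementary cut: its universe is an initial segment. -/
def IsCut (K : arithLang.ElementarySubstructure M) : Prop :=
  ∀ x ∈ K, ∀ y : M, plt y x → y ∈ K

/-- The elementary submodel `K` of `M` is proper. -/
def IsProper (K : arithLang.ElementarySubstructure M) : Prop := ∃ x : M, x ∉ K

/-- `M` is a conservative extension of its elementary submodel `K`: `Y ∩ K ∈ Def(K)` for every
`Y ∈ Def(M)`. -/
def IsConservative (K : arithLang.ElementarySubstructure M) : Prop :=
  ∀ Y : Set M, Def M Y → Def K {k : K | (k : M) ∈ Y}

end Models

/-! ### The standard model and arithmetical relations -/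

/-- The interpretation of the symbols of arithmetic in the standard model. -/
def natFun : ∀ n : ℕ, ℕ → (Fin n → ℕ) → ℕ
  | 0, _, _ => 0
  | 1, _, x => x 0 + 1
  | 2, i, x => if i = 0 then x 0 + x 1 else x 0 * x 1
  | _ + 3, _, _ => 0

/-- The standard model of arithmetic. -/
instance natArith : arithLang.Structure ℕ where
  funMap := fun {n} f x => natFun n f.1 x
  RelMap := fun {_} r _ => r.2.elim

/-- The relation `R` is arithmetical: defined by a formula in the standard model. -/
def ArR (R : (ℕ → ℕ) → Prop) : Prop :=
  ∃ φ : arithLang.Formula ℕ, ∀ v : ℕ → ℕ, φ.Realize v ↔ R v

variable {α β : Type} [Primcodable α] [Primcodable β]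

/-- The predicate `P` is arithmetical. -/
def ArithP (P : α → Prop) : Prop :=
  ArR (fun v => ∃ a : α, Encodable.encode a = v 0 ∧ P a)

/-- The function `f` is arithmetical. -/
def ArithF (f : α → β) : Prop := ArithP (fun p : α × β => f p.1 = p.2)

end Pool.Agent.Helper69.Enayat
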