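import Pool.Agent.Helper69.Enayat.Spec

set_option autoImplicit false

namespace Pool.Agent.Helper69.Enayat

open FirstOrder FirstOrder.Language Pool.Agent.Helper30.SatB Filter

variable {U : Ultrafilter (List Bool)} {M : Type} [arithLang.Structure M] {mk : ArF → M}

/-- The definable ultrapower is a model of true arithmetic. -/
theorem IsUP.elementarilyEquivalent (h : IsUP U M mk) : ℕ ≅[arithLang] M := by
  rw [Language.elementarilyEquivalent_iff]
  intro φ
  have h1 := h.los φ (fun e : Empty => e.elim) (fun i : Fin 0 => i.elim0)
  have key : ∀ (N : Type) [arithLang.Structure N] (a b : Empty → N) (c d : Fin 0 → N),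
      BoundedFormula.Realize φ a c ↔ BoundedFormula.Realize φ b d := by
    intro N _ a b c d
    rw [Subsingleton.elim a b, Subsingleton.elim c d]
  unfold Sentence.Realize Formula.Realize
  refine Iff.trans ?_ (h1.symm.trans (key M _ _ _ _))
  refine Iff.trans ?_ (eventually_congr (Eventually.of_forall fun x => key ℕ default _ default _))
  rw [eventually_const]
  exact key ℕ _ _ _ _

end Pool.Agent.Helper69.Enayat
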