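import Mathlib

set_option autoImplicit false

namespace Pool.Agent.Helper69.Enayat

/-- The prefix relation is primitive recursive. -/
theorem primrecPred_prefix {α : Type} [Primcodable α] [DecidableEq α] :
    PrimrecPred (fun p : List α × List α => p.1 <+: p.2) := by
  have h : PrimrecPred (fun p : List α × List α => p.1 = p.2.take p.1.length) :=
    Primrec.eq.comp Primrec.fst (Primrec.list_take.comp
      (Primrec.list_length.comp Primrec.fst) Primrec.snd)
  exact h.of_eq fun p => List.prefix_iff_eq_take.symm

end Pool.Agent.Helper69.Enayat
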