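import Pool.Agent.Helper69.Enayat.Spec
import Pool.Agent.Helper69.Enayat.AR
import Pool.Agent.Helper69.Enayat.Prim

set_option autoImplicit false

namespace Pool.Agent.Helper69.Enayat

open FirstOrder FirstOrder.Language Pool.Agent.Helper30.SatB Filter

/-! ### Relations given by formulas of a language, with variables indexed by `ℕ` -/

section RD

/-- the sequence `x, v 0, v 1, …` -/
def cns {β : Type} (x : β) (v : ℕ → β) : ℕ → β
  | 0 => x
  | n + 1 => v n

variable (L : FirstOrder.Language.{0, 0}) (N : Type) [L.Structure N]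

/-- the relation `R` is given by a formula without parameters -/
def RD (R : (ℕ → N) → Prop) : Prop := ∃ φ : L.Formula ℕ, ∀ v, φ.Realize v ↔ R v

variable {L N}

theorem RD.congr {R S : (ℕ → N) → Prop} (hR : RD L N R) (h : ∀ v, S v ↔ R v) : RD L N S := by
  obtain ⟨φ, hφ⟩ := hR
  exact ⟨φ, fun v => (hφ v).trans (h v).symm⟩

theorem RD.not {R : (ℕ → N) → Prop} (hR : RD L N R) : RD L N (fun v => ¬ R v) := by
  obtain ⟨φ, hφ⟩ := hR
  refine ⟨φ.not, fun v => ?_⟩
  rw [Formula.realize_not, hφ v]

theorem RD.and {R S : (ℕ → N) → Prop} (hR : RD L N R) (hS : RD L N S) :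
    RD L N (fun v => R v ∧ S v) := by
  obtain ⟨φ, hφ⟩ := hR
  obtain ⟨ψ, hψ⟩ := hS
  refine ⟨φ ⊓ ψ, fun v => ?_⟩
  rw [Formula.realize_inf, hφ v, hψ v]

theorem RD.imp {R S : (ℕ → N) → Prop} (hR : RD L N R) (hS : RD L N S) :
    RD L N (fun v => R v → S v) := by
  obtain ⟨φ, hφ⟩ := hR
  obtain ⟨ψ, hψ⟩ := hS
  refine ⟨φ.imp ψ, fun v => ?_⟩
  rw [Formula.realize_imp, hφ v, hψ v]

theorem RD.sub {R : (ℕ → N) → Prop} (hR : RD L N R) (σ : ℕ → ℕ) :
    RD L N (fun v => R (fun i => v (σ i))) := by
  obtain ⟨φ, hφ⟩ := hR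
  refine ⟨φ.relabel σ, fun v => ?_⟩
  rw [Formula.realize_relabel]
  exact hφ _

/-- the renaming behind the existential quantifier -/
def exG : ℕ → ℕ ⊕ Fin 1
  | 0 => Sum.inr 0
  | n + 1 => Sum.inl n

theorem RD.ex {R : (ℕ → N) → Prop} (hR : RD L N R) : RD L N (fun v => ∃ x, R (cns x v)) := by
  obtain ⟨φ, hφ⟩ := hR
  refine ⟨BoundedFormula.ex (n := 0) (BoundedFormula.relabel (n := 1) (k := 0) exG φ),
    fun v => ?_⟩
  unfold Formula.Realize
  rw [BoundedFormula.realize_ex]
  refine exists_congr fun x => ?_
  rw [← hφ]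
  have h := BoundedFormula.realize_relabel (L := L) (m := 1) (n := 0) (φ := φ) (g := exG)
    (v := v) (xs := Fin.snoc (default : Fin 0 → N) x)
  refine h.trans ?_
  have e1 : (Sum.elim v ((Fin.snoc (default : Fin 0 → N) x : Fin (1 + 0) → N) ∘ Fin.castAdd 0) ∘ exG)
      = cns x v := by
    funext i
    cases i with
    | zero => rfl
    | succ i => rfl
  rw [e1]
  exact iff_of_eq (congrArg _ (Subsingleton.elim _ _))

theorem RD.all {R : (ℕ → N) → Prop} (hR : RD L N R) : RD L N (fun v => ∀ x, R (cns x v)) :=
  hR.not.ex.not.congr fun v => by simp only [not_exists, not_not]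

theorem RD.definable₁ {R : (ℕ → N) → Prop} (hR : RD L N R) (D : Set N)
    (h : ∀ v : ℕ → N, R v ↔ v 0 ∈ D) : (∅ : Set N).Definable₁ L D := by
  obtain ⟨φ, hφ⟩ := hR
  unfold Set.Definable₁
  rw [Set.empty_definable_iff]
  refine ⟨φ.relabel (fun _ => (0 : Fin 1)), ?_⟩
  ext v
  refine Iff.trans ?_ (Formula.realize_relabel (φ := φ)).symm
  rw [hφ, h]
  exact Iff.rfl

end RD

/-! ### The expanded language -/

section Exp

variable {M : Type} [arithLang.Structure M] (X : Set M)

theorem RD.lift {R : (ℕ → M) → Prop} (hR : RD arithLang M R) :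
    @RD (arithLang.sum predLang) M (@Language.sumStructure arithLang predLang M _
      (predStructure X)) R := by
  let _ : predLang.Structure M := predStructure X
  obtain ⟨φ, hφ⟩ := hR
  refine ⟨(LHom.sumInl (L := arithLang) (L' := predLang)).onFormula φ, fun v => ?_⟩
  rw [LHom.realize_onFormula, hφ]

/-- the predicate symbol -/
def predSym : (arithLang.sum predLang).Relations 1 :=
  Sum.inr (show predLang.Relations 1 from (PLift.up rfl : PLift (1 = 1)))

theorem RD.mem : @RD (arithLang.sum predLang) M (@Language.sumStructure arithLang predLang M _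
      (predStructure X)) (fun v => v 0 ∈ X) := by
  let _ : predLang.Structure M := predStructure X
  refine ⟨Relations.formula₁ predSym (Term.var 0), fun v => ?_⟩
  refine (Formula.realize_rel₁ (R := predSym) (t := (Term.var 0)) (v := v)).trans ?_
  exact Iff.rfl

end Exp

/-! ### Minimal elements of a set of strings -/

section Min

theorem exists_minimal_hit {B : List Bool → Prop} {w : List Bool}
    (h : ∃ k ≤ w.length, B (w.take k)) :
    ∃ k ≤ w.length, B (w.take k) ∧ ∀ j < (w.take k).length, ¬ B ((w.take k).take j) := by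
  classical
  obtain ⟨k, hk, hB⟩ := h
  induction k using Nat.strong_induction_on with
  | _ k ih =>
    by_cases hc : ∃ j < (w.take k).length, B ((w.take k).take j)
    · obtain ⟨j, hj, hj'⟩ := hc
      rw [List.length_take] at hj
      rw [List.take_take, min_eq_left (by omega)] at hj'
      exact ih j (by omega) (by omega) hj'
    · exact ⟨k, hk, hB, fun j hj h => hc ⟨j, hj, h⟩⟩

/-- two different minimal strings differ at a place inside both -/
theorem exists_diff {B : List Bool → Prop} {u w : List Bool} (hu : B u)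
    (hu' : ∀ j < u.length, ¬ B (u.take j)) (hw : B w) (hw' : ∀ j < w.length, ¬ B (w.take j))
    (hne : u ≠ w) : ∃ i, i < u.length ∧ i < w.length ∧ u[i]? ≠ w[i]? := by
  by_contra hc
  push Not at hc
  rcases lt_trichotomy u.length w.length with h | h | h
  · refine hw' u.length h ?_
    have : w.take u.length = u := by
      apply List.ext_getElem?
      intro i
      by_cases hi : i < u.length
      · rw [List.getElem?_take_of_lt hi, hc i hi (by omega)]
      · rw [List.getElem?_eq_none (by rw [List.length_take]; omega),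
          List.getElem?_eq_none (by omega)]
    rw [this]
    exact hu
  · apply hne
    apply List.ext_getElem?
    intro i
    by_cases hi : i < u.length
    · exact hc i hi (by omega)
    · rw [List.getElem?_eq_none (by omega), List.getElem?_eq_none (by omega)]
  · refine hu' w.length h ?_
    have : u.take w.length = w := by
      apply List.ext_getElem?
      intro i
      by_cases hi : i < w.length
      · rw [List.getElem?_take_of_lt hi, hc i (by omega) hi]
      · rw [List.getElem?_eq_none (by rw [List.length_take]; omega),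
          List.getElem?_eq_none (by omega)]
    rw [this]
    exact hw

end Min

/-! ### Los for two variables -/

section Los

variable {U : Ultrafilter (List Bool)} {M : Type} [arithLang.Structure M] {mk : ArF → M}

theorem los2 (h : IsUP U M mk) (φ : arithLang.Formula (Fin 2)) (p q : ArF) (v : Fin 2 → M)
    (h0 : v 0 = mk p) (h1 : v 1 = mk q) :
    φ.Realize v ↔ ∀ᶠ x in (U : Filter (List Bool)), φ.Realize ![p.1 x, q.1 x] := by
  have h2 := h.los φ ![p, q] (default : Fin 0 → ArF)
  have e1 : (fun i => mk (![p, q] i)) = v := by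
    funext i
    fin_cases i
    · exact h0.symm
    · exact h1.symm
  have e2 : ∀ x, (fun i => (![p, q] i).1 x) = ![p.1 x, q.1 x] := by
    intro x
    funext i
    fin_cases i <;> rfl
  rw [e1] at h2
  simp only [e2] at h2
  unfold Formula.Realize
  refine Iff.trans (iff_of_eq (congrArg _ (Subsingleton.elim _ _))) (h2.trans ?_)
  refine eventually_congr (Eventually.of_forall fun x => ?_)
  exact iff_of_eq (congrArg _ (Subsingleton.elim _ _))

theorem mk_eq' (h : IsUP U M mk) (f g : ArF) :
    mk f = mk g ↔ ∀ᶠ x in (U : Filter (List Bool)), f.1 x = g.1 x := by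
  have h2 := los2 h ((Term.var 0).equal (Term.var 1)) f g ![mk f, mk g] rfl rfl
  rw [Formula.realize_equal] at h2
  refine h2.trans (eventually_congr (Eventually.of_forall fun x => ?_))
  rw [Formula.realize_equal]
  exact Iff.rfl

end Los

/-! ### The main step -/

section Main

variable {U : Ultrafilter (List Bool)} {M : Type} [arithLang.Structure M] {mk : ArF → M}

/-- the minimal elements of an arithmetical set of strings form an arithmetical set -/
theorem arith_minimal {B : List Bool → Prop} (hB : ArithP B) :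
    ArithP (fun u : List Bool => B u ∧ ∀ j < u.length, ¬ B (u.take j)) := by
  refine hB.and ?_
  refine ArithP.all (P := fun (u : List Bool) (j : ℕ) => j < u.length → ¬ B (u.take j)) ?_
  refine ArithP.imp (ArithP.of_primrec ?_) (ArithP.not (ArithP.comp hB (ArithF.of_primrec ?_)))
  · exact Primrec.nat_lt.comp Primrec.snd (Primrec.list_length.comp Primrec.fst)
  · exact Primrec.list_take.comp Primrec.snd Primrec.fst

/-- an arithmetical choice of the length of a minimal hit -/
theorem exists_kappa {B : List Bool → Prop} {g : List Bool → List Bool} (hB : ArithP B)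
    (hg : ArithF g) : ∃ κ : List Bool → ℕ, ArithF κ ∧ ∀ x,
      (∃ k ≤ (g x).length, B ((g x).take k)) → κ x ≤ (g x).length ∧ B ((g x).take (κ x)) ∧
        ∀ j < ((g x).take (κ x)).length, ¬ B (((g x).take (κ x)).take j) := by
  have h1 : ArithP (fun p : List Bool × ℕ => p.2 ≤ (g p.1).length ∧
      (B ((g p.1).take p.2) ∧
        ∀ j < ((g p.1).take p.2).length, ¬ B (((g p.1).take p.2).take j))) := by
    refine ArithP.and ?_ ?_
    · exact ArithP.comp₂ (P := fun (n m : ℕ) => n ≤ m) (ArithP.of_primrec
        (Primrec.nat_le.comp Primrec.fst Primrec.snd)) (ArithF.of_primrec Primrec.snd)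
        ((ArithF.of_primrec Primrec.list_length).comp (hg.comp (ArithF.of_primrec Primrec.fst)))
    · refine ArithP.comp (arith_minimal hB) (f := fun p : List Bool × ℕ => (g p.1).take p.2) ?_
      exact ArithF.comp₂ (g := fun (l : List Bool) (n : ℕ) => l.take n)
        (ArithF.of_primrec (Primrec.list_take.comp Primrec.snd Primrec.fst))
        (hg.comp (ArithF.of_primrec Primrec.fst)) (ArithF.of_primrec Primrec.snd)
  obtain ⟨κ, hκ, h2⟩ := ArithP.skolem (P := fun (x : List Bool) (k : ℕ) =>
    k ≤ (g x).length ∧ (B ((g x).take k) ∧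
        ∀ j < ((g x).take k).length, ¬ B (((g x).take k).take j))) h1
  exact ⟨κ, hκ, fun x hx => h2 x (exists_minimal_hit hx)⟩

theorem IsUP.pointwise (h : IsUP U M mk) (hU : Good U) (X : Set M) {g : List Bool → List Bool}
    {B : List Bool → Prop} (hk : KeyData U mk X g B) : ExpansionPointwiseDefinable M X := by
  classical
  obtain ⟨κ, hκ, hmin⟩ := exists_kappa hk.arB hk.arg
  -- almost everywhere `κ x` is the length of a minimal hit
  have hhit : ∀ᶠ x in (U : Filter (List Bool)), κ x ≤ (g x).length ∧ B ((g x).take (κ x)) ∧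
      ∀ j < ((g x).take (κ x)).length, ¬ B (((g x).take (κ x)).take j) :=
    hk.hit.mono hmin
  -- `κ` is not almost everywhere constant
  have hnc : ¬ ∃ n, ∀ᶠ x in (U : Filter (List Bool)), κ x = n := by
    rintro ⟨n, hn⟩
    obtain ⟨x, h1, h2, h3⟩ := (hn.and ((hk.std n).and hhit)).exists
    rw [h1] at h3
    exact h2 h3.2.1
  obtain ⟨A, hA, hAU, hinj⟩ := (hU.ramsey κ hκ).resolve_left hnc
  intro a
  obtain ⟨⟨f, hf⟩, rfl⟩ := h.surj a
  -- the three auxiliary relations
  have hW : ArithP (fun p : List Bool × ℕ =>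
      (B p.1 ∧ ∀ j < p.1.length, ¬ B (p.1.take j)) ∧ ∃ x, A x ∧ (κ x = p.1.length ∧ f x = p.2)) := by
    refine ArithP.and ?_ ?_
    · exact ArithP.comp (arith_minimal hk.arB) (f := fun p : List Bool × ℕ => p.1)
        (ArithF.of_primrec Primrec.fst)
    · refine ArithP.ex (P := fun (p : List Bool × ℕ) (x : List Bool) =>
        A x ∧ (κ x = p.1.length ∧ f x = p.2)) ?_
      refine ArithP.and (ArithP.comp hA (ArithF.of_primrec Primrec.snd))
        (ArithP.and (ArithP.eq ?_ ?_) (ArithP.eq ?_ ?_))
      · exact hκ.comp (ArithF.of_primrec Primrec.snd)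
      · exact ArithF.of_primrec (Primrec.list_length.comp (Primrec.fst.comp Primrec.fst))
      · exact hf.comp (ArithF.of_primrec Primrec.snd)
      · exact ArithF.of_primrec (Primrec.snd.comp Primrec.fst)
  have hV : ∀ b : Bool, ArithP (fun p : List Bool × ℕ => p.1[p.2]? = some b) := fun b =>
    ArithP.of_primrec (Primrec.eq.comp (Primrec.list_getElem?.comp Primrec.fst Primrec.snd)
      (Primrec.const _))
  obtain ⟨φW, hφW⟩ := ArithP.formula₂ (P := fun (u : List Bool) (y : ℕ) =>
    (B u ∧ ∀ j < u.length, ¬ B (u.take j)) ∧ ∃ x, A x ∧ (κ x = u.length ∧ f x = y)) hW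
  obtain ⟨φ₁, hφ₁⟩ := ArithP.formula₂ (P := fun (u : List Bool) (i : ℕ) => u[i]? = some true)
    (hV true)
  obtain ⟨φ₀, hφ₀⟩ := ArithP.formula₂ (P := fun (u : List Bool) (i : ℕ) => u[i]? = some false)
    (hV false)
  have losW := los2 h φW
  have los₁ := los2 h φ₁
  have los₀ := los2 h φ₀
  -- the formula
  let _ : predLang.Structure M := predStructure X
  have hRD : ∀ φ : arithLang.Formula (Fin 2), ∀ a b : ℕ, RD (arithLang.sum predLang) M
      (fun v => φ.Realize ![v a, v b]) := by
    intro φ a b
    refine RD.lift X ⟨φ.relabel ![a, b], fun v => ?_⟩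
    rw [Formula.realize_relabel]
    have : v ∘ ![a, b] = ![v a, v b] := by
      funext i
      fin_cases i <;> rfl
    rw [this]
  have hX : RD (arithLang.sum predLang) M (fun v => v 0 ∈ X) := RD.mem X
  have hmain : RD (arithLang.sum predLang) M (fun v => ∃ u, φW.Realize ![u, v 0] ∧
      ∀ i, (φ₁.Realize ![u, i] → i ∈ X) ∧ (φ₀.Realize ![u, i] → i ∉ X)) :=
    ((hRD φW 0 1).and (((hRD φ₁ 1 0).imp hX).and ((hRD φ₀ 1 0).imp hX.not)).all).ex.congr
      fun v => Iff.rfl
  refine hmain.definable₁ _ fun v => ?_
  rw [Set.mem_singleton_iff]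
  -- the string of a minimal hit, and its code
  have hw0 : ArithF (fun x : List Bool => (g x).take (κ x)) :=
    ArithF.comp₂ (g := fun (l : List Bool) (n : ℕ) => l.take n)
      (ArithF.of_primrec (Primrec.list_take.comp Primrec.snd Primrec.fst)) hk.arg hκ
  constructor
  · rintro ⟨u, hu1, hu2⟩
    obtain ⟨⟨p, hp⟩, rfl⟩ := h.surj u
    obtain ⟨⟨q, hq⟩, hqv⟩ := h.surj (v 0)
    rw [losW ⟨p, hp⟩ ⟨q, hq⟩ _ rfl hqv.symm] at hu1
    rw [← hqv, mk_eq' h]
    have hw : ArithF (fun x : List Bool => ((Encodable.decode (p x) : Option (List Bool)).getD [])) :=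
      (ArithF.of_primrec (Primrec.option_getD.comp Primrec.decode (Primrec.const []))).comp hp
    -- the string coded by `u`
    have hu1' : ∀ᶠ x in (U : Filter (List Bool)),
        Encodable.encode ((Encodable.decode (p x) : Option (List Bool)).getD []) = p x ∧
        (B ((Encodable.decode (p x) : Option (List Bool)).getD []) ∧
          ∀ j < ((Encodable.decode (p x) : Option (List Bool)).getD []).length,
            ¬ B (((Encodable.decode (p x) : Option (List Bool)).getD []).take j)) ∧
        ∃ y, A y ∧ κ y = ((Encodable.decode (p x) : Option (List Bool)).getD []).length ∧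
          f y = q x := by
      refine hu1.mono fun x hx => ?_
      obtain ⟨w, y, e1, e2, h1, z, hz⟩ := (hφW _).1 hx
      have e1' : Encodable.encode w = p x := e1
      have e2' : y = q x := e2
      rw [← e1', Encodable.encodek, Option.getD_some]
      refine ⟨rfl, h1, z, hz.1, hz.2.1, hz.2.2.trans e2'⟩
    obtain ⟨w, hwdef⟩ : ∃ w : List Bool → List Bool,
        w = fun x => ((Encodable.decode (p x) : Option (List Bool)).getD []) := ⟨_, rfl⟩
    have hw' : ArithF w := by rw [hwdef]; exact hw
    have hu3 : ∀ᶠ x in (U : Filter (List Bool)), Encodable.encode (w x) = p x ∧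
        (B (w x) ∧ ∀ j < (w x).length, ¬ B ((w x).take j)) ∧
        ∃ y, A y ∧ κ y = (w x).length ∧ f y = q x := by
      rw [hwdef]
      exact hu1'
    -- the two strings coincide
    have hww : ∀ᶠ x in (U : Filter (List Bool)), w x = (g x).take (κ x) := by
      by_contra hc
      rw [← Ultrafilter.eventually_not] at hc
      have hdiff : ArithP (fun r : List Bool × ℕ => r.2 < (w r.1).length ∧
          (r.2 < ((g r.1).take (κ r.1)).length ∧
            ¬ (w r.1)[r.2]? = ((g r.1).take (κ r.1))[r.2]?)) := by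
        have hlt : ∀ {F : List Bool → List Bool}, ArithF F →
            ArithP (fun r : List Bool × ℕ => r.2 < (F r.1).length) := fun {F} hF =>
          ArithP.comp₂ (P := fun (n m : ℕ) => n < m) (ArithP.of_primrec
            (Primrec.nat_lt.comp Primrec.fst Primrec.snd)) (ArithF.of_primrec Primrec.snd)
            ((ArithF.of_primrec Primrec.list_length).comp
              (hF.comp (ArithF.of_primrec Primrec.fst)))
        have hget : ∀ {F : List Bool → List Bool}, ArithF F →
            ArithF (fun r : List Bool × ℕ => (F r.1)[r.2]?) := fun {F} hF =>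
          ArithF.comp₂ (g := fun (l : List Bool) (n : ℕ) => l[n]?)
            (ArithF.of_primrec (Primrec.list_getElem?.comp Primrec.fst Primrec.snd))
            (hF.comp (ArithF.of_primrec Primrec.fst)) (ArithF.of_primrec Primrec.snd)
        exact (hlt hw').and ((hlt hw0).and (ArithP.eq (hget hw') (hget hw0)).not)
      obtain ⟨ι, hι, hι'⟩ := ArithP.skolem (P := fun (x : List Bool) (i : ℕ) =>
        i < (w x).length ∧ (i < ((g x).take (κ x)).length ∧
          ¬ (w x)[i]? = ((g x).take (κ x))[i]?)) hdiff
      have hi : ∀ᶠ x in (U : Filter (List Bool)), ι x < (w x).length ∧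
          (ι x < ((g x).take (κ x)).length ∧ ¬ (w x)[ι x]? = ((g x).take (κ x))[ι x]?) := by
        filter_upwards [hc, hu3, hhit] with x h1 h2 h3
        obtain ⟨i, hi1, hi2, hi3⟩ := exists_diff h2.2.1.1 h2.2.1.2 h3.2.1 h3.2.2 h1
        exact hι' x ⟨i, hi1, hi2, hi3⟩
      have hlen : ∀ᶠ x in (U : Filter (List Bool)), ι x < (g x).length := by
        filter_upwards [hi] with x h1
        have := h1.2.1
        rw [List.length_take] at this
        omega
      have hrep := hk.repr ⟨ι, hι⟩ hlen
      have hgi : ∀ᶠ x in (U : Filter (List Bool)), ((g x).take (κ x))[ι x]? = (g x)[ι x]? := by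
        filter_upwards [hi] with x h1
        have := h1.2.1
        rw [List.length_take] at this
        exact List.getElem?_take_of_lt (by omega)
      by_cases hm : mk ⟨ι, hι⟩ ∈ X
      · have h1 := hrep.1 hm
        refine (hu2 (mk ⟨ι, hι⟩)).2 ?_ hm
        rw [los₀ ⟨p, hp⟩ ⟨ι, hι⟩ _ rfl rfl]
        filter_upwards [h1, hi, hgi, hu3] with x h1 h2 h3 h4
        refine (hφ₀ _).2 ⟨w x, ι x, h4.1, rfl, ?_⟩
        have h5 := h2.2.2
        rw [h3, h1] at h5
        rw [List.getElem?_eq_getElem h2.1] at h5 ⊢
        cases hb : (w x)[ι x]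
        · rfl
        · exact absurd (by rw [hb]) h5
      · have h1 : ¬ ∀ᶠ x in (U : Filter (List Bool)), (g x)[ι x]? = some true :=
          fun hh => hm (hrep.2 hh)
        rw [← Ultrafilter.eventually_not] at h1
        refine hm ((hu2 (mk ⟨ι, hι⟩)).1 ?_)
        rw [los₁ ⟨p, hp⟩ ⟨ι, hι⟩ _ rfl rfl]
        filter_upwards [h1, hi, hgi, hu3, hlen] with x h1 h2 h3 h4 h6
        refine (hφ₁ _).2 ⟨w x, ι x, h4.1, rfl, ?_⟩
        have h5 := h2.2.2
        rw [h3] at h5
        have h7 : (g x)[ι x]? = some false := by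
          rw [List.getElem?_eq_getElem h6] at h1 ⊢
          cases hb : (g x)[ι x]
          · rfl
          · exact absurd (by rw [hb]) h1
        rw [h7] at h5
        rw [List.getElem?_eq_getElem h2.1] at h5 ⊢
        cases hb : (w x)[ι x]
        · exact absurd (by rw [hb]) h5
        · rfl
    filter_upwards [hww, hu3, hhit, hAU] with x h1 h2 h3 h4
    obtain ⟨y, hy1, hy2, hy3⟩ := h2.2.2
    have h5 : κ y = κ x := by
      rw [hy2, h1, List.length_take]
      omega
    rw [← hy3, hinj y x hy1 h4 h5]
  · intro hv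
    have hu : ArithF (fun x : List Bool => Encodable.encode ((g x).take (κ x))) :=
      (ArithF.of_primrec Primrec.encode).comp hw0
    refine ⟨mk ⟨_, hu⟩, ?_, fun i => ?_⟩
    · rw [losW ⟨_, hu⟩ ⟨f, hf⟩ _ rfl hv]
      filter_upwards [hhit, hAU] with x h1 h2
      refine (hφW _).2 ⟨(g x).take (κ x), f x, rfl, rfl, h1.2, x, h2, ?_, rfl⟩
      rw [List.length_take]
      omega
    · obtain ⟨⟨j, hj⟩, rfl⟩ := h.surj i
      rw [los₁ ⟨_, hu⟩ ⟨j, hj⟩ _ rfl rfl, los₀ ⟨_, hu⟩ ⟨j, hj⟩ _ rfl rfl]
      have key : ∀ (b : Bool) (x : List Bool),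
          (∃ (w : List Bool) (y : ℕ), Encodable.encode w =
            (![Encodable.encode ((g x).take (κ x)), j x] : Fin 2 → ℕ) 0 ∧
            Encodable.encode y = (![Encodable.encode ((g x).take (κ x)), j x] : Fin 2 → ℕ) 1 ∧
            w[y]? = some b) → j x < (g x).length ∧ (g x)[j x]? = some b := by
        rintro b x ⟨w, y, e1, e2, e3⟩
        have e1' : w = (g x).take (κ x) := Encodable.encode_injective e1
        have e2' : y = j x := e2
        rw [e1', e2'] at e3
        obtain ⟨h4, -⟩ := List.getElem?_eq_some_iff.1 e3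
        rw [List.length_take] at h4
        rw [List.getElem?_take_of_lt (by omega)] at e3
        exact ⟨by omega, e3⟩
      constructor
      · intro h1
        have h2 : ∀ᶠ x in (U : Filter (List Bool)), j x < (g x).length ∧
            (g x)[j x]? = some true := h1.mono fun x hx => key true x ((hφ₁ _).1 hx)
        exact (hk.repr ⟨j, hj⟩ (h2.mono fun x hx => hx.1)).2 (h2.mono fun x hx => hx.2)
      · intro h1 h3
        have h2 : ∀ᶠ x in (U : Filter (List Bool)), j x < (g x).length ∧
            (g x)[j x]? = some false := h1.mono fun x hx => key false x ((hφ₀ _).1 hx)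
        have h4 := (hk.repr ⟨j, hj⟩ (h2.mono fun x hx => hx.1)).1 h3
        obtain ⟨x, h5, h6⟩ := (h4.and h2).exists
        rw [h6.2] at h5
        exact Bool.noConfusion (Option.some.inj h5)

end Main

end Pool.Agent.Helper69.Enayat
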