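import Pool.Agent.Helper69.Enayat.Equiv
import Pool.Agent.Helper69.Enayat.PWD
import Pool.Agent.Helper69.Enayat.D3
import Pool.Agent.Helper48.Enayat.D2
import Pool.Agent.Helper48.Enayat.D4
import Pool.Agent.Helper48.Enayat.Los
import Pool.Agent.Helper29.Enayat.Gen
import Pool.Agent.Helper29.Enayat.Cut
import Pool.Agent.Helper20.Enayat.Key

/-!
# An Enayat model of true arithmetic which is not conservative over the standard cut
-/

set_option autoImplicit false

namespace Pool.Agent.Helper69.Enayat

open FirstOrder FirstOrder.Language Pool.Agent.Helper30.SatB Filter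

theorem exists_good : ∃ U : Ultrafilter (List Bool), Good U :=
  exists_good_of (fun C _ hf => dense_inj C hf) (fun C _ hg => dense_real C hg)
    (fun C Z n => dense_stem C Z n)

theorem main : ∃ (M : Type) (_ : arithLang.Structure M),
    IsEnayat M ∧ (ℕ ≅[arithLang] M) ∧
      ∃ K : arithLang.ElementarySubstructure M,
        (∀ x : M, x ∈ K ↔ ∃ n : ℕ, x = pNum M n) ∧
          IsCut M K ∧ IsProper M K ∧ ¬ IsConservative M K := by
  obtain ⟨U, hU⟩ := exists_good
  obtain ⟨M, _, mk, h⟩ := exists_isUP U
  refine ⟨M, inferInstance, ⟨h.peano, h.countable, h.not_prime hU, fun X hX hX' => ?_⟩,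
    h.elementarilyEquivalent, h.exists_cut_of hU (fun D => (h.def_iff D).2)⟩
  obtain ⟨g, B, hk⟩ := h.exists_key_of h.lt_iff hU X hX hX'
  exact h.pointwise hU X hk

end Pool.Agent.Helper69.Enayat
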